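import Pool.Agent.Mg.F402458a.Gfc2816

set_option maxSynthPendingDepth 3

open Pool.Agent.MP_402458_gt

namespace Pool.Agent.Results.MP_402458_gt.Q1NotOpenAllDim

/-- Negative answer to Q1 in every dimension `n ≥ 2`, with `N` a point of a complete Riemannian
manifold; the metric is real analytic when `n ≥ 3`. -/
theorem result (n : ℕ) (hn : 2 ≤ n) :
    ∃ (g : EuclideanSpace ℝ (Fin n) →
        EuclideanSpace ℝ (Fin n) →L[ℝ] EuclideanSpace ℝ (Fin n) →L[ℝ] ℝ)
      (p : EuclideanSpace ℝ (Fin n)),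
      IsRiemannianMetric g ∧ IsCompleteMetric g ∧ (3 ≤ n → AnalyticOnNhd ℝ g Set.univ) ∧
      ∃ u ∈ tangentSeparatingSet g p,
        u ∈ closure (tangentCutLocus g p \ tangentSeparatingSet g p) := by
  obtain ⟨g, p, h1, h2, h3⟩ := Sf.main_all n hn
  exact ⟨g, p, h1.riem, h1.complete, fun h => contDiff_omega_iff_analyticOnNhd.1 (h3 h), h2.q1⟩

end Pool.Agent.Results.MP_402458_gt.Q1NotOpenAllDim
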